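import Mathlib

/-!
# Partial DP-coloring from 2-fold covers when `χ_DP > 3`

We exhibit a graph `G` on `13` vertices with `χ_DP(G) = 5` and `α_2^DP(G) ≤ 5 < 2·13/5`.

The graph is `4`-degenerate (so `χ_DP(G) ≤ 5`), and it has a `2`-fold cover whose independence
number is at most `5`.  Two disjoint copies of this cover form a `4`-fold cover with no coloring,
so `χ_DP(G) ≥ 5`.
-/

set_option autoImplicit false

namespace Pool.Agent.Results.MP_f6aace_co.ThirteenVertices

/-- `(L, H)` is a cover of `G`: the sets `L u` partition the vertices of `H`; each `L u` is a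
clique of `H`; for an edge `uv` of `G` the edges of `H` between `L u` and `L v` form a matching; for
distinct nonadjacent `u, v` there are no edges of `H` between `L u` and `L v`. -/
structure IsCover {V W : Type} (G : SimpleGraph V) (H : SimpleGraph W) (L : V → Finset W) :
    Prop where
  partition : ∀ w : W, ∃! u : V, w ∈ L u
  clique : ∀ u : V, ∀ x ∈ L u, ∀ y ∈ L u, x ≠ y → H.Adj x y
  matching : ∀ u v : V, G.Adj u v → ∀ x ∈ L u, ∀ y ∈ L v, ∀ y' ∈ L v,
    H.Adj x y → H.Adj x y' → y = y'
  nonadj : ∀ u v : V, u ≠ v → ¬ G.Adj u v → ∀ x ∈ L u, ∀ y ∈ L v, ¬ H.Adj x y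

/-- `G` has an `H`-coloring (an independent set of `H` of size `|V(G)|`) for every `m`-fold
cover. -/
def DPColorable {V : Type} [Fintype V] (G : SimpleGraph V) (m : ℕ) : Prop :=
  ∀ (W : Type) [Finite W] (H : SimpleGraph W) (L : V → Finset W), IsCover G H L →
    (∀ u, (L u).card = m) → ∃ I : Finset W, H.IsIndepSet (I : Set W) ∧ I.card = Fintype.card V

/-- The DP-chromatic number: the least `m` such that `G` is DP-`m`-colorable. -/
noncomputable def chiDP {V : Type} [Fintype V] (G : SimpleGraph V) : ℕ :=
  sInf {m : ℕ | DPColorable G m}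

/-- `α_t^DP(G)`: the minimum of the independence number `α(H)` over all `t`-fold covers. -/
noncomputable def alphaDP {V : Type} (t : ℕ) (G : SimpleGraph V) : ℕ :=
  sInf {a : ℕ | ∃ (W : Type) (_ : Finite W) (H : SimpleGraph W) (L : V → Finset W),
    IsCover G H L ∧ (∀ u, (L u).card = t) ∧ a = H.indepNum}

/-! ### The data -/

/-- Adjacency bit masks: bit `y` of entry `x` says that `x` and `y` are adjacent in the cover graph;
the vertex `u` of `G` has the two elements `2u` and `2u+1`. -/
def AL : List ℕ :=
  [21930, 43605, 4270682, 8525221, 1344102, 2638233, 43670, 21865, 87721, 174422, 25561481,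
   38340166, 33694089, 16847430, 2654625, 1327698, 5646596, 11081224, 18449424, 36063264, 6651920,
   10108960, 43059204, 23200776, 42214400, 21501952]

/-- Adjacency of elements of the cover graph. -/
def nb (x y : ℕ) : Bool := (AL.getD x 0).testBit y

/-- Adjacency in `G`. -/
def nbG (u v : ℕ) : Bool := nb (2 * u) (2 * v) || nb (2 * u) (2 * v + 1)

theorem nb_symm : ∀ x < 26, ∀ y < 26, nb x y = nb y x := by decide +kernel

theorem nb_irrefl : ∀ x < 26, nb x x = false := by decide +kernel

theorem nb_pair : ∀ u < 13, nb (2 * u) (2 * u + 1) = true := by decide +kernel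

theorem nb_match' : ∀ u v : Fin 13, ∀ i j j' : Fin 2, u = v ∨
    nb (2 * u.1 + i.1) (2 * v.1 + j.1) = false ∨ nb (2 * u.1 + i.1) (2 * v.1 + j'.1) = false ∨
    j = j' := by
  decide +kernel

theorem nb_match (u v : Fin 13) (huv : u ≠ v) (i j j' : ℕ) (hi : i < 2) (hj : j < 2)
    (hj' : j' < 2) (h : nb (2 * u.1 + i) (2 * v.1 + j) = true)
    (h' : nb (2 * u.1 + i) (2 * v.1 + j') = true) : j = j' := by
  rcases nb_match' u v ⟨i, hi⟩ ⟨j, hj⟩ ⟨j', hj'⟩ with h1 | h1 | h1 | h1
  · exact absurd h1 huv
  · simp only at h1; rw [h] at h1; exact absurd h1 (by decide)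
  · simp only at h1; rw [h'] at h1; exact absurd h1 (by decide)
  · exact congrArg Fin.val h1

theorem nb_G' : ∀ u v : Fin 13, ∀ i j : Fin 2, u = v ∨
    nb (2 * u.1 + i.1) (2 * v.1 + j.1) = false ∨ nbG u.1 v.1 = true := by
  decide +kernel

theorem nb_G (u v : Fin 13) (huv : u ≠ v) (i j : ℕ) (hi : i < 2) (hj : j < 2)
    (h : nb (2 * u.1 + i) (2 * v.1 + j) = true) : nbG u.1 v.1 = true := by
  rcases nb_G' u v ⟨i, hi⟩ ⟨j, hj⟩ with h1 | h1 | h1
  · exact absurd h1 huv
  · simp only at h1; rw [h] at h1; exact absurd h1 (by decide)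
  · exact h1

theorem nbG_symm : ∀ u < 13, ∀ v < 13, nbG u v = nbG v u := by decide +kernel

theorem back_degree : ∀ v < 13, ((Finset.range v).filter fun u => nbG u v = true).card ≤ 4 := by
  decide +kernel

/-! ### Independent sets of the cover graph -/

/-- `chk k a b = true` implies that independent sets of elements `< k` of the mask `a` have at most
`b` elements. -/
def chk : ℕ → ℕ → ℕ → Bool
  | 0, _, _ => true
  | k + 1, a, b =>
    bif a.testBit k then
      (decide (0 < b) && chk k (a &&& ((AL.getD k 0) ^^^ 67108863)) (b - 1)) && chk k a b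
    else chk k a b

theorem chk_spec : ∀ (k a b : ℕ), k ≤ 26 → chk k a b = true → ∀ J : Finset ℕ,
    (∀ x ∈ J, x < k ∧ a.testBit x = true) → (∀ x ∈ J, ∀ y ∈ J, x ≠ y → nb x y = false) →
    J.card ≤ b := by
  intro k
  induction k with
  | zero =>
    intro a b _ _ J hJ _
    have : J = ∅ := by
      apply Finset.eq_empty_of_forall_notMem
      intro x hx
      exact absurd (hJ x hx).1 (Nat.not_lt_zero x)
    simp [this]
  | succ k ih =>
    intro a b hk hc J hJ hI
    rw [chk] at hc
    by_cases hkJ : k ∈ J
    · have hak := (hJ k hkJ).2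
      rw [hak, cond_true] at hc
      simp only [Bool.and_eq_true, decide_eq_true_eq] at hc
      have h1 := ih _ (b - 1) (by omega) hc.1.2 (J.erase k) ?_ ?_
      · have h2 := Finset.card_erase_of_mem hkJ
        have h3 := hc.1.1
        omega
      · intro x hx
        rw [Finset.mem_erase] at hx
        have h3 := hJ x hx.2
        have h4 := hI k hkJ x hx.2 (Ne.symm hx.1)
        refine ⟨by omega, ?_⟩
        rw [Nat.testBit_land, h3.2, Bool.true_and, Nat.testBit_xor]
        unfold nb at h4
        rw [h4, Bool.false_xor]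
        have h5 : x < 26 := by omega
        have h6 : (67108863 : ℕ) = 2 ^ 26 - 1 := by norm_num
        rw [h6, Nat.testBit_two_pow_sub_one]
        simpa using h5
      · intro x hx y hy hxy
        rw [Finset.mem_erase] at hx hy
        exact hI x hx.2 y hy.2 hxy
    · have hJ' : ∀ x ∈ J, x < k ∧ a.testBit x = true := by
        intro x hx
        have h3 := hJ x hx
        have : x ≠ k := fun h => hkJ (h ▸ hx)
        exact ⟨by omega, h3.2⟩
      cases hak : a.testBit k with
      | false =>
        rw [hak, cond_false] at hc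
        exact ih a b (by omega) hc J hJ' hI
      | true =>
        rw [hak, cond_true] at hc
        simp only [Bool.and_eq_true] at hc
        exact ih a b (by omega) hc.2 J hJ' hI

theorem chk_true : chk 26 67108863 5 = true := by decide +kernel

theorem indep_le (J : Finset ℕ) (hJ : ∀ x ∈ J, x < 26)
    (hI : ∀ x ∈ J, ∀ y ∈ J, x ≠ y → nb x y = false) : J.card ≤ 5 := by
  refine chk_spec 26 67108863 5 le_rfl chk_true J (fun x hx => ⟨hJ x hx, ?_⟩) hI
  have h6 : (67108863 : ℕ) = 2 ^ 26 - 1 := by norm_num
  rw [h6, Nat.testBit_two_pow_sub_one]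
  simpa using hJ x hx

/-! ### The graph -/

/-- The graph on `13` vertices. -/
def G : SimpleGraph (Fin 13) where
  Adj u v := u ≠ v ∧ nbG u.1 v.1 = true
  symm := ⟨fun u v h => ⟨h.1.symm, by rw [nbG_symm v.1 v.2 u.1 u.2]; exact h.2⟩⟩
  loopless := ⟨fun u h => h.1 rfl⟩

/-- The `m`-fold covers (`m ≤ 4`) built from two copies of the `2`-fold cover. -/
def Hm (m : ℕ) : SimpleGraph (Fin 13 × Fin m) where
  Adj x y := (x.1 = y.1 ∧ x.2 ≠ y.2) ∨
    (x.1 ≠ y.1 ∧ x.2.1 / 2 = y.2.1 / 2 ∧
      nb (2 * x.1.1 + x.2.1 % 2) (2 * y.1.1 + y.2.1 % 2) = true)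
  symm := ⟨fun x y h => by
    rcases h with h | h
    · exact Or.inl ⟨h.1.symm, h.2.symm⟩
    · refine Or.inr ⟨h.1.symm, h.2.1.symm, ?_⟩
      rw [nb_symm _ (by have := y.1.2; omega) _ (by have := x.1.2; omega)]
      exact h.2.2⟩
  loopless := ⟨fun x h => by
    rcases h with h | h
    · exact h.2 rfl
    · exact h.1 rfl⟩

/-- The lists of the cover. -/
def Lm (m : ℕ) (u : Fin 13) : Finset (Fin 13 × Fin m) :=
  Finset.univ.map ⟨fun i : Fin m => (u, i), fun _ _ h => (Prod.mk.inj h).2⟩

theorem mem_Lm {m : ℕ} {u : Fin 13} {x : Fin 13 × Fin m} : x ∈ Lm m u ↔ x.1 = u := by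
  unfold Lm
  rw [Finset.mem_map]
  constructor
  · rintro ⟨i, _, rfl⟩; rfl
  · rintro rfl; exact ⟨x.2, Finset.mem_univ _, rfl⟩

theorem card_Lm (m : ℕ) (u : Fin 13) : (Lm m u).card = m := by
  unfold Lm
  rw [Finset.card_map, Finset.card_univ, Fintype.card_fin]

theorem isCover_m (m : ℕ) : IsCover G (Hm m) (Lm m) where
  partition w := ⟨w.1, mem_Lm.mpr rfl, fun u hu => (mem_Lm.mp hu).symm⟩
  clique u x hx y hy hxy := by
    rw [mem_Lm] at hx hy
    refine Or.inl ⟨hx.trans hy.symm, fun h => hxy (Prod.ext (hx.trans hy.symm) h)⟩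
  matching u v huv x hx y hy y' hy' h h' := by
    rw [mem_Lm] at hx hy hy'
    have hne : x.1 ≠ y.1 := by rw [hx, hy]; exact huv.1
    have hne' : x.1 ≠ y'.1 := by rw [hx, hy']; exact huv.1
    rcases h with h | h
    · exact absurd h.1 hne
    rcases h' with h' | h'
    · exact absurd h'.1 hne'
    have hyy : y.1 = y'.1 := hy.trans hy'.symm
    have h1 := h.2.2
    have h2 := h'.2.2
    rw [← hyy] at h2
    have h3 := nb_match x.1 y.1 hne _ _ _ (Nat.mod_lt _ (by norm_num))
      (Nat.mod_lt _ (by norm_num)) (Nat.mod_lt _ (by norm_num)) h1 h2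
    have h4 := h.2.1
    have h5 := h'.2.1
    refine Prod.ext hyy (Fin.ext ?_)
    omega
  nonadj u v huv hG x hx y hy h := by
    rw [mem_Lm] at hx hy
    rcases h with h | h
    · exact huv (hx.symm.trans (h.1.trans hy))
    · apply hG
      refine ⟨huv, ?_⟩
      have := nb_G x.1 y.1 h.1 _ _ (Nat.mod_lt _ (by norm_num)) (Nat.mod_lt _ (by norm_num))
        h.2.2
      rw [hx, hy] at this
      exact this

/-- An independent set of `Hm m` has at most `5` elements in each of the two copies. -/
theorem indep_copy {m : ℕ} (I : Finset (Fin 13 × Fin m)) (hI : (Hm m).IsIndepSet (I : Set _))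
    (q : ℕ) : (I.filter fun x => x.2.1 / 2 = q).card ≤ 5 := by
  have hinj : Set.InjOn (fun x : Fin 13 × Fin m => 2 * x.1.1 + x.2.1 % 2)
      (I.filter fun x => x.2.1 / 2 = q : Finset _) := by
    intro x hx y hy h
    have hx := (Finset.mem_filter.mp (Finset.mem_coe.mp hx)).2
    have hy := (Finset.mem_filter.mp (Finset.mem_coe.mp hy)).2
    simp only at h
    refine Prod.ext (Fin.ext (by omega)) (Fin.ext (by omega))
  rw [← Finset.card_image_of_injOn hinj]
  apply indep_le
  · intro x hx
    rw [Finset.mem_image] at hx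
    obtain ⟨y, _, rfl⟩ := hx
    have := y.1.2
    omega
  · intro x hx y hy hxy
    rw [Finset.mem_image] at hx hy
    obtain ⟨x, hx, rfl⟩ := hx
    obtain ⟨y, hy, rfl⟩ := hy
    rw [Finset.mem_filter] at hx hy
    have hxy' : x ≠ y := fun e => hxy (by rw [e])
    have hn := hI (Finset.mem_coe.mpr hx.1) (Finset.mem_coe.mpr hy.1) hxy'
    rw [Bool.eq_false_iff]
    intro hnb
    apply hn
    by_cases h1 : x.1 = y.1
    · refine Or.inl ⟨h1, fun h2 => hxy' (Prod.ext h1 h2)⟩
    · exact Or.inr ⟨h1, hx.2.trans hy.2.symm, hnb⟩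

theorem alpha_le : alphaDP 2 G ≤ 5 := by
  have h1 : alphaDP 2 G ≤ (Hm 2).indepNum :=
    Nat.sInf_le ⟨Fin 13 × Fin 2, inferInstance, Hm 2, Lm 2, isCover_m 2, card_Lm 2, rfl⟩
  refine h1.trans ?_
  obtain ⟨s, hs⟩ := (Hm 2).exists_isNIndepSet_indepNum
  rw [← hs.card_eq]
  have h2 := indep_copy s hs.isIndepSet 0
  have h3 : (s.filter fun x => x.2.1 / 2 = 0) = s := by
    apply Finset.filter_true_of_mem
    intro x _
    have := x.2.2
    omega
  rw [h3] at h2
  exact h2

theorem not_colorable (m : ℕ) (hm : m ≤ 4) : ¬ DPColorable G m := by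
  intro h
  obtain ⟨I, hI, hc⟩ := h (Fin 13 × Fin m) (Hm m) (Lm m) (isCover_m m) (card_Lm m)
  rw [Fintype.card_fin] at hc
  have h0 := indep_copy I hI 0
  have h1 := indep_copy I hI 1
  have h2 : I = (I.filter fun x => x.2.1 / 2 = 0) ∪ (I.filter fun x => x.2.1 / 2 = 1) := by
    ext x
    rw [Finset.mem_union, Finset.mem_filter, Finset.mem_filter]
    constructor
    · intro hx
      have := x.2.2
      by_cases h3 : x.2.1 / 2 = 0
      · exact Or.inl ⟨hx, h3⟩
      · exact Or.inr ⟨hx, by omega⟩
    · rintro (hx | hx) <;> exact hx.1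
  have h3 := Finset.card_union_le (I.filter fun x => x.2.1 / 2 = 0)
    (I.filter fun x => x.2.1 / 2 = 1)
  rw [← h2] at h3
  omega

/-! ### The greedy coloring -/

theorem colorable_five : DPColorable G 5 := by
  classical
  intro W _ H L hcov hfold
  have hne : Nonempty W := by
    have h0 : (L 0).Nonempty := by
      rw [← Finset.card_pos, hfold 0]; norm_num
    exact ⟨h0.choose⟩
  have key : ∀ k : ℕ, k ≤ 13 → ∃ c : Fin 13 → W, (∀ v : Fin 13, v.1 < k → c v ∈ L v) ∧
      (∀ u v : Fin 13, u.1 < v.1 → v.1 < k → ¬ H.Adj (c u) (c v)) := by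
    intro k
    induction k with
    | zero =>
      intro _
      exact ⟨fun _ => Classical.arbitrary W, fun v hv => absurd hv (Nat.not_lt_zero _),
        fun u v _ hv => absurd hv (Nat.not_lt_zero _)⟩
    | succ k ih =>
      intro hk
      obtain ⟨c, hc1, hc2⟩ := ih (by omega)
      set v : Fin 13 := ⟨k, by omega⟩ with hv
      set N : Finset (Fin 13) := Finset.univ.filter fun u => u.1 < k ∧ nbG u.1 k = true with hN
      have hNc : N.card ≤ 4 := by
        have h1 := back_degree k (by omega)
        refine le_trans ?_ h1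
        apply Finset.card_le_card_of_injOn (fun u : Fin 13 => u.1)
        · intro u hu
          have hu := (Finset.mem_filter.mp (Finset.mem_coe.mp hu)).2
          rw [Finset.mem_coe, Finset.mem_filter, Finset.mem_range]
          exact hu
        · intro a _ b _ h
          exact Fin.ext h
      set F : Finset W := N.biUnion fun u => (L v).filter fun y => H.Adj (c u) y with hF
      have hFc : F.card ≤ 4 := by
        have h1 : F.card ≤ N.card * 1 := by
          apply Finset.card_biUnion_le_card_mul
          intro u hu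
          rw [hN, Finset.mem_filter] at hu
          rw [Finset.card_le_one]
          intro y hy y' hy'
          rw [Finset.mem_filter] at hy hy'
          have huv : G.Adj u v := by
            refine ⟨?_, hu.2.2⟩
            intro e
            have := congrArg Fin.val e
            simp only [hv] at this
            omega
          exact hcov.matching u v huv (c u) (hc1 u hu.2.1) y hy.1 y' hy'.1 hy.2 hy'.2
        omega
      have hex : ((L v) \ F).Nonempty := by
        rw [← Finset.card_pos]
        have h1 := Finset.le_card_sdiff F (L v)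
        rw [hfold v] at h1
        omega
      obtain ⟨y, hy⟩ := hex
      rw [Finset.mem_sdiff] at hy
      refine ⟨Function.update c v y, ?_, ?_⟩
      · intro w hw
        by_cases hwv : w = v
        · rw [hwv, Function.update_self]; exact hy.1
        · rw [Function.update_of_ne hwv]
          apply hc1
          have : w.1 ≠ k := fun e => hwv (Fin.ext e)
          omega
      · intro u w huw hw
        by_cases hwv : w = v
        · have huv : u ≠ v := by
            intro e
            rw [e, hwv] at huw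
            exact lt_irrefl _ huw
          rw [hwv, Function.update_self, Function.update_of_ne huv]
          have huk : u.1 < k := by rw [hwv] at huw; exact huw
          intro hadj
          by_cases hG : G.Adj u v
          · apply hy.2
            rw [hF, Finset.mem_biUnion]
            refine ⟨u, ?_, ?_⟩
            · rw [hN, Finset.mem_filter]
              exact ⟨Finset.mem_univ _, huk, hG.2⟩
            · rw [Finset.mem_filter]; exact ⟨hy.1, hadj⟩
          · exact hcov.nonadj u v huv hG (c u) (hc1 u huk) y hy.1 hadj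
        · have hwk : w.1 < k := by
            have : w.1 ≠ k := fun e => hwv (Fin.ext e)
            omega
          have huv : u ≠ v := by
            intro e
            have h1 : u.1 = k := by rw [e]
            omega
          rw [Function.update_of_ne hwv, Function.update_of_ne huv]
          exact hc2 u w huw hwk
  obtain ⟨c, hc1, hc2⟩ := key 13 le_rfl
  have hinj : Function.Injective c := by
    intro u v h
    obtain ⟨w, _, hw⟩ := hcov.partition (c u)
    have h1 := hw u (hc1 u u.2)
    have h2 := hw v (by simp only; rw [h]; exact hc1 v v.2)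
    rw [h1, h2]
  refine ⟨Finset.univ.image c, ?_, ?_⟩
  · intro x hx y hy hxy
    rw [Finset.mem_coe, Finset.mem_image] at hx hy
    obtain ⟨u, _, rfl⟩ := hx
    obtain ⟨v, _, rfl⟩ := hy
    have huv : u ≠ v := fun e => hxy (by rw [e])
    rcases lt_or_gt_of_ne (fun e : u.1 = v.1 => huv (Fin.ext e)) with h | h
    · exact hc2 u v h v.2
    · intro hadj
      exact hc2 v u h u.2 hadj.symm
  · rw [Finset.card_image_of_injective _ hinj, Finset.card_univ]

theorem chi_eq : chiDP G = 5 := by
  apply le_antisymm
  · exact Nat.sInf_le colorable_five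
  · apply le_csInf ⟨5, colorable_five⟩
    intro m hm
    by_contra hcon
    exact not_colorable m (by omega) hm

/-- **MP_f6aace, Q1 (yes).** There is a graph `G` (on 13 vertices, with `χ_DP(G) = 5`) such that
`χ_DP(G) > 3` and `α_2^DP(G) < 2 |V(G)| / χ_DP(G)`. -/
theorem result : ∃ G : SimpleGraph (Fin 13), chiDP G = 5 ∧ 3 < chiDP G ∧
    (alphaDP 2 G : ℚ) < 2 * (Fintype.card (Fin 13) : ℚ) / (chiDP G : ℚ) := by
  refine ⟨G, chi_eq, by rw [chi_eq]; norm_num, ?_⟩
  rw [chi_eq, Fintype.card_fin]
  have h : (alphaDP 2 G : ℚ) ≤ 5 := by exact_mod_cast alpha_le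
  refine lt_of_le_of_lt h ?_
  norm_num

end Pool.Agent.Results.MP_f6aace_co.ThirteenVertices
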